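import Mathlib

/-!
# Small C*-algebras have a copy in the lowest universe
-/

namespace Pool.Agent.Helper10.BK

universe u v w

open scoped CStarAlgebra

noncomputable section

/-- A small non-unital C*-algebra is isometrically isomorphic to one in `Type`. -/
theorem exists_copy (S : Type u) [NonUnitalCStarAlgebra S] [Small.{0} S] :
    ∃ (T : Type) (_ : NonUnitalCStarAlgebra T) (e : T ≃⋆ₐ[ℂ] S), ∀ t, ‖e t‖ = ‖t‖ := by
  obtain ⟨T, ⟨e₀⟩⟩ := (inferInstance : Small.{0} S).equiv_small
  let e : T ≃ S := e₀.symm
  let i1 : NonUnitalRing T := e.nonUnitalRing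
  let er : T ≃+* S := e.ringEquiv
  let i2 : Module ℂ T := e.module ℂ
  let el : T ≃ₗ[ℂ] S := e.linearEquiv ℂ
  let i3 : NonUnitalNormedRing T := NonUnitalNormedRing.induced T S er er.injective
  have hn : ∀ t : T, ‖t‖ = ‖e t‖ := fun t => rfl
  let i4 : NormedSpace ℂ T := NormedSpace.induced ℂ T S el.toLinearMap
  let i5 : StarRing T :=
    { star := fun x => e.symm (star (e x))
      star_involutive := fun x => by
        show e.symm (star (e (e.symm (star (e x))))) = x
        rw [e.apply_symm_apply, star_star, e.symm_apply_apply]
      star_mul := fun x y => by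
        show e.symm (star (er (x * y))) = er.symm (star (er y)) * er.symm (star (er x))
        rw [map_mul, star_mul, ← map_mul]
        rfl
      star_add := fun x y => by
        show er.symm (star (er (x + y))) = er.symm (star (er x)) + er.symm (star (er y))
        rw [map_add, star_add, ← map_add] }
  have hs : ∀ t : T, e (star t) = star (e t) := fun t => e.apply_symm_apply _
  have hiso : Isometry e := by
    refine Isometry.of_dist_eq fun x y => ?_
    rw [dist_eq_norm, dist_eq_norm, hn]
    show _ = ‖er (x - y)‖
    rw [map_sub]
    rfl
  have hcomp : CompleteSpace T := by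
    rw [completeSpace_iff_isComplete_range hiso.isUniformInducing, e.range_eq_univ]
    exact isComplete_univ
  have hmul : ∀ x y : T, e (x * y) = e x * e y := fun x y => map_mul er x y
  have hadd : ∀ x y : T, e (x + y) = e x + e y := fun x y => map_add er x y
  have hsm : ∀ (c : ℂ) (x : T), e (c • x) = c • e x := fun c x => map_smul el c x
  let i6 : NonUnitalCStarAlgebra T :=
    { i3, i5, i4 with
      complete := hcomp.complete
      norm_mul_self_le := fun x => by
        show ‖e x‖ * ‖e x‖ ≤ ‖e (star x * x)‖
        rw [hmul, hs]
        exact (CStarRing.norm_star_mul_self (x := e x)).symm.le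
      smul_assoc := fun c x y => by
        apply e.injective
        show e ((c • x) * y) = e (c • (x * y))
        rw [hmul, hsm, hsm, hmul, smul_mul_assoc]
      smul_comm := fun c x y => by
        apply e.injective
        show e (c • (x * y)) = e (x * (c • y))
        rw [hmul, hsm, hsm, hmul, mul_smul_comm]
      star_smul := fun c x => by
        apply e.injective
        show e (star (c • x)) = e (star c • star x)
        rw [hs, hsm, hsm, hs, star_smul] }
  exact ⟨T, i6, { e with
    map_mul' := hmul
    map_add' := hadd
    map_star' := hs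
    map_smul' := hsm }, fun t => rfl⟩

/-- The same for unital C*-algebras. -/
theorem exists_copy_unital (S : Type u) [CStarAlgebra S] [Small.{0} S] :
    ∃ (T : Type) (_ : CStarAlgebra T) (e : T ≃⋆ₐ[ℂ] S), ∀ t, ‖e t‖ = ‖t‖ := by
  obtain ⟨T, ⟨e₀⟩⟩ := (inferInstance : Small.{0} S).equiv_small
  let e : T ≃ S := e₀.symm
  let i1 : Ring T := e.ring
  let er : T ≃+* S := e.ringEquiv
  let i2 : Algebra ℂ T := e.algebra ℂ
  let el : T ≃ₐ[ℂ] S := e.algEquiv ℂ
  let i3 : NormedRing T := NormedRing.induced T S er er.injective
  have hn : ∀ t : T, ‖t‖ = ‖e t‖ := fun t => rfl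
  let i4 : NormedAlgebra ℂ T := NormedAlgebra.induced ℂ T S el
  let i5 : StarRing T :=
    { star := fun x => e.symm (star (e x))
      star_involutive := fun x => by
        show e.symm (star (e (e.symm (star (e x))))) = x
        rw [e.apply_symm_apply, star_star, e.symm_apply_apply]
      star_mul := fun x y => by
        show e.symm (star (er (x * y))) = er.symm (star (er y)) * er.symm (star (er x))
        rw [map_mul, star_mul, ← map_mul]
        rfl
      star_add := fun x y => by
        show er.symm (star (er (x + y))) = er.symm (star (er x)) + er.symm (star (er y))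
        rw [map_add, star_add, ← map_add] }
  have hs : ∀ t : T, e (star t) = star (e t) := fun t => e.apply_symm_apply _
  have hiso : Isometry e := by
    refine Isometry.of_dist_eq fun x y => ?_
    rw [dist_eq_norm, dist_eq_norm, hn]
    show _ = ‖er (x - y)‖
    rw [map_sub]
    rfl
  have hcomp : CompleteSpace T := by
    rw [completeSpace_iff_isComplete_range hiso.isUniformInducing, e.range_eq_univ]
    exact isComplete_univ
  have hmul : ∀ x y : T, e (x * y) = e x * e y := fun x y => map_mul er x y
  have hadd : ∀ x y : T, e (x + y) = e x + e y := fun x y => map_add er x y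
  have hsm : ∀ (c : ℂ) (x : T), e (c • x) = c • e x := fun c x => map_smul el c x
  let i6 : CStarAlgebra T :=
    { i3, i5, i4 with
      complete := hcomp.complete
      norm_mul_self_le := fun x => by
        show ‖e x‖ * ‖e x‖ ≤ ‖e (star x * x)‖
        rw [hmul, hs]
        exact (CStarRing.norm_star_mul_self (x := e x)).symm.le
      star_smul := fun c x => by
        apply e.injective
        show e (star (c • x)) = e (star c • star x)
        rw [hs, hsm, hsm, hs, star_smul] }
  exact ⟨T, i6, { e with
    map_mul' := hmul
    map_add' := hadd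
    map_star' := hs
    map_smul' := hsm }, fun t => rfl⟩

theorem small_of_finiteDimensional (S : Type u) [AddCommGroup S] [Module ℂ S]
    [FiniteDimensional ℂ S] : Small.{0} S :=
  ⟨_, ⟨(Module.finBasis ℂ S).equivFun.toEquiv⟩⟩

end

end Pool.Agent.Helper10.BK
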