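import Mathlib
import Pool.Agent.Helper10.BK.Transport

/-!
# Every small subset of a nuclear C*-algebra lies in a small nuclear C*-subalgebra
-/

namespace Pool.Agent.Helper10.BK

universe u v w

open scoped CStarAlgebra Topology
open Filter

noncomputable section

/-- contractive and completely positive, written with squares -/
def CCPu {A : Type u} {B : Type v} [NonUnitalCStarAlgebra A] [NonUnitalCStarAlgebra B]
    (φ : A →ₗ[ℂ] B) : Prop :=
  (∀ a, ‖φ a‖ ≤ ‖a‖) ∧ ∀ (n : ℕ) (y : Matrix (Fin n) (Fin n) A),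
    ∃ z : Matrix (Fin n) (Fin n) B, (star y * y).map φ = star z * z

/-- a contractive completely positive factorization through a finite-dimensional C*-algebra -/
structure Fac (C : Type u) [NonUnitalCStarAlgebra C] where
  D : Type
  iD : CStarAlgebra D
  fD : FiniteDimensional ℂ D
  φ : C →ₗ[ℂ] D
  ψ : D →ₗ[ℂ] C
  hφ : CCPu φ
  hψ : CCPu ψ

attribute [instance] Fac.iD Fac.fD

/-- completely positive approximation property -/
def CPAPu (C : Type u) [NonUnitalCStarAlgebra C] : Prop :=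
  ∀ (F : Finset C) (ε : ℝ), 0 < ε → ∃ f : Fac C, ∀ c ∈ F, ‖f.ψ (f.φ c) - c‖ < ε

variable {C : Type u} [NonUnitalCStarAlgebra C]

/-- the square roots -/
def zz (f : Fac C) (m : ℕ) (y : Matrix (Fin m) (Fin m) f.D) : Matrix (Fin m) (Fin m) C :=
  (f.hψ.2 m y).choose

theorem zz_spec (f : Fac C) (m : ℕ) (y : Matrix (Fin m) (Fin m) f.D) :
    (star y * y).map f.ψ = star (zz f m y) * zz f m y :=
  (f.hψ.2 m y).choose_spec

open Classical in
/-- the chosen factorizations -/
def fc (hC : CPAPu C) (l : List C) (k : ℕ) : Fac C :=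
  (hC l.toFinset (1 / ((k : ℝ) + 1)) (by positivity)).choose

theorem fc_spec (hC : CPAPu C) (l : List C) (k : ℕ) (c : C) (hc : c ∈ l) :
    ‖(fc hC l k).ψ ((fc hC l k).φ c) - c‖ < 1 / ((k : ℝ) + 1) := by
  classical
  exact (hC l.toFinset (1 / ((k : ℝ) + 1)) (by positivity)).choose_spec c (List.mem_toFinset.2 hc)

/-- the elements which belong to a factorization -/
def facSet (f : Fac C) : Set C :=
  Set.range f.ψ ∪ ⋃ (m : ℕ) (y : Matrix (Fin m) (Fin m) f.D) (i : Fin m) (j : Fin m),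
    Set.range (fun _ : Unit => zz f m y i j)

instance (f : Fac C) : Small.{0} (facSet f) := by
  unfold facSet
  infer_instance

/-- one step of the closing-off process -/
def step (hC : CPAPu C) (Z : Set C) : Set C :=
  Z ∪ (Set.image2 (· + ·) Z Z ∪ (Set.image2 (· * ·) Z Z ∪
    (Set.image2 (fun (c : ℂ) (x : C) => c • x) Set.univ Z ∪ (star '' Z ∪
      ⋃ (l : List Z) (k : ℕ), facSet (fc hC (l.map (fun x : Z => (x : C))) k)))))

instance small_step (hC : CPAPu C) (Z : Set C) [Small.{0} Z] : Small.{0} (step hC Z) := by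
  unfold step
  infer_instance

/-- the stages -/
def stg (hC : CPAPu C) (Z : Set C) : ℕ → Set C
  | 0 => Z
  | n + 1 => step hC (stg hC Z n)

instance small_stg (hC : CPAPu C) (Z : Set C) [Small.{0} Z] (n : ℕ) : Small.{0} (stg hC Z n) := by
  induction n with
  | zero => exact inferInstanceAs (Small.{0} Z)
  | succ n ih => exact inferInstanceAs (Small.{0} (step hC (stg hC Z n)))

theorem stg_mono (hC : CPAPu C) (Z : Set C) : Monotone (stg hC Z) :=
  monotone_nat_of_le_succ fun _ _ hx => Or.inl hx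

/-- the union of the stages -/
def uni (hC : CPAPu C) (Z : Set C) : Set C := ⋃ n, stg hC Z n

theorem mem_uni {hC : CPAPu C} {Z : Set C} {x : C} : x ∈ uni hC Z ↔ ∃ n, x ∈ stg hC Z n :=
  Set.mem_iUnion

/-- the union as a star subalgebra -/
def uniA (hC : CPAPu C) (Z : Set C) (hZ : Z.Nonempty) : NonUnitalStarSubalgebra ℂ C where
  carrier := uni hC Z
  zero_mem' := by
    obtain ⟨x, hx⟩ := hZ
    refine mem_uni.2 ⟨1, Or.inr (Or.inr (Or.inr (Or.inl ⟨0, trivial, x, hx, zero_smul ℂ x⟩)))⟩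
  add_mem' := by
    intro x y hx hy
    obtain ⟨n, hn⟩ := mem_uni.1 hx
    obtain ⟨m, hm⟩ := mem_uni.1 hy
    exact mem_uni.2 ⟨max n m + 1, Or.inr (Or.inl ⟨x, stg_mono hC Z (le_max_left n m) hn, y,
      stg_mono hC Z (le_max_right n m) hm, rfl⟩)⟩
  mul_mem' := by
    intro x y hx hy
    obtain ⟨n, hn⟩ := mem_uni.1 hx
    obtain ⟨m, hm⟩ := mem_uni.1 hy
    exact mem_uni.2 ⟨max n m + 1, Or.inr (Or.inr (Or.inl ⟨x, stg_mono hC Z (le_max_left n m) hn,
      y, stg_mono hC Z (le_max_right n m) hm, rfl⟩))⟩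
  smul_mem' := by
    intro c x hx
    obtain ⟨n, hn⟩ := mem_uni.1 hx
    exact mem_uni.2 ⟨n + 1, Or.inr (Or.inr (Or.inr (Or.inl ⟨c, trivial, x, hn, rfl⟩)))⟩
  star_mem' := by
    intro x hx
    obtain ⟨n, hn⟩ := mem_uni.1 hx
    exact mem_uni.2 ⟨n + 1, Or.inr (Or.inr (Or.inr (Or.inr (Or.inl ⟨x, hn, rfl⟩))))⟩

theorem facSet_sub (hC : CPAPu C) (Z : Set C) (n : ℕ) (l : List C) (hl : ∀ c ∈ l, c ∈ stg hC Z n)
    (k : ℕ) : facSet (fc hC l k) ⊆ uni hC Z := by
  intro x hx
  refine mem_uni.2 ⟨n + 1, Or.inr (Or.inr (Or.inr (Or.inr (Or.inr ?_))))⟩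
  let l' : List (stg hC Z n) := l.attachWith (· ∈ stg hC Z n) hl
  have h : l'.map (fun x : stg hC Z n => (x : C)) = l := List.attachWith_map_subtype_val hl
  refine Set.mem_iUnion.2 ⟨l', Set.mem_iUnion.2 ⟨k, ?_⟩⟩
  rw [h]
  exact hx

/-- the closure of the union: a C*-subalgebra -/
def cloA (hC : CPAPu C) (Z : Set C) (hZ : Z.Nonempty) : NonUnitalStarSubalgebra ℂ C :=
  (uniA hC Z hZ).topologicalClosure

instance closed_cloA (hC : CPAPu C) (Z : Set C) (hZ : Z.Nonempty) :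
    IsClosed (cloA hC Z hZ : Set C) :=
  NonUnitalStarSubalgebra.isClosed_topologicalClosure _

theorem mem_cloA_of_uni {hC : CPAPu C} {Z : Set C} {hZ : Z.Nonempty} {x : C}
    (h : x ∈ uni hC Z) : x ∈ cloA hC Z hZ :=
  (uniA hC Z hZ).le_topologicalClosure h

theorem mem_closure_uni {hC : CPAPu C} {Z : Set C} {hZ : Z.Nonempty} {x : C}
    (h : x ∈ cloA hC Z hZ) : x ∈ closure (uni hC Z) := h

instance small_cloA (hC : CPAPu C) (Z : Set C) (hZ : Z.Nonempty) [Small.{0} Z] :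
    Small.{0} (cloA hC Z hZ) := by
  have h1 : Small.{0} (uni hC Z) := by
    unfold uni
    infer_instance
  have h2 : ((cloA hC Z hZ : Set C)) ⊆
      Set.range (fun u : ℕ → uni hC Z => limUnder atTop (fun n => ((u n : uni hC Z) : C))) := by
    intro x hx
    obtain ⟨u, hu, hlim⟩ := mem_closure_iff_seq_limit.1 (mem_closure_uni hx)
    exact ⟨fun n => ⟨u n, hu n⟩, hlim.limUnder_eq⟩
  exact small_subset h2

theorem exists_stage (hC : CPAPu C) (Z : Set C) (l : List C) (hl : ∀ c ∈ l, c ∈ uni hC Z) :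
    ∃ n, ∀ c ∈ l, c ∈ stg hC Z n := by
  induction l with
  | nil => exact ⟨0, fun c hc => absurd hc (by simp)⟩
  | cons a l ih =>
    obtain ⟨n, hn⟩ := ih fun c hc => hl c (List.mem_cons_of_mem _ hc)
    obtain ⟨m, hm⟩ := mem_uni.1 (hl a List.mem_cons_self)
    refine ⟨max n m, fun c hc => ?_⟩
    rcases List.mem_cons.1 hc with rfl | hc
    · exact stg_mono hC Z (le_max_right n m) hm
    · exact stg_mono hC Z (le_max_left n m) (hn c hc)

/-- a factorization which lives in a closed star subalgebra -/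
def restr (S : NonUnitalStarSubalgebra ℂ C) [IsClosed (S : Set C)] (f : Fac C)
    (hf : facSet f ⊆ (S : Set C)) : Fac S where
  D := f.D
  iD := f.iD
  fD := f.fD
  φ := { toFun := fun x => f.φ (x : C)
         map_add' := fun x y => map_add f.φ (x : C) (y : C)
         map_smul' := fun c x => map_smul f.φ c (x : C) }
  ψ := { toFun := fun d => ⟨f.ψ d, hf (Or.inl ⟨d, rfl⟩)⟩
         map_add' := fun x y => Subtype.ext (map_add f.ψ x y)
         map_smul' := fun c x => Subtype.ext (map_smul f.ψ c x) }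
  hφ := by
    refine ⟨fun a => f.hφ.1 _, fun n y => ?_⟩
    obtain ⟨z, hz⟩ := f.hφ.2 n (y.map Subtype.val)
    refine ⟨z, ?_⟩
    rw [← hz]
    ext i j
    simp only [Matrix.map_apply, Matrix.mul_apply, Matrix.star_apply]
    show f.φ _ = f.φ _
    congr 1
    simp
  hψ := by
    refine ⟨fun d => f.hψ.1 d, fun n y => ?_⟩
    have hz := zz_spec f n y
    refine ⟨Matrix.of fun i j => ⟨zz f n y i j, hf (Or.inr (Set.mem_iUnion.2 ⟨n,
      Set.mem_iUnion.2 ⟨y, Set.mem_iUnion.2 ⟨i, Set.mem_iUnion.2 ⟨j, (), rfl⟩⟩⟩⟩))⟩, ?_⟩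
    ext i j
    have h1 := congrFun (congrFun hz i) j
    simp only [Matrix.map_apply, Matrix.mul_apply, Matrix.star_apply] at h1 ⊢
    refine Eq.trans ?_ (h1.trans ?_)
    · rfl
    · simp

theorem cpap_cloA (hC : CPAPu C) (Z : Set C) (hZ : Z.Nonempty) : CPAPu (cloA hC Z hZ) := by
  classical
  intro F ε hε
  have h0 : ∀ c : cloA hC Z hZ, ∃ w ∈ uni hC Z, ‖(c : C) - w‖ < ε / 3 := by
    intro c
    obtain ⟨w, hw, hd⟩ := Metric.mem_closure_iff.1 (mem_closure_uni c.2) (ε / 3) (by positivity)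
    exact ⟨w, hw, by rwa [dist_eq_norm] at hd⟩
  choose w hw hd using h0
  obtain ⟨n, hn⟩ := exists_stage hC Z (F.toList.map w) (by
    intro c hc
    obtain ⟨x, -, rfl⟩ := List.mem_map.1 hc
    exact hw x)
  obtain ⟨k, hk⟩ := exists_nat_one_div_lt (show (0 : ℝ) < ε / 3 by positivity)
  refine ⟨restr (cloA hC Z hZ) (fc hC (F.toList.map w) k)
    ((facSet_sub hC Z n _ hn k).trans fun x hx => mem_cloA_of_uni hx), fun c hc => ?_⟩
  have h1 := fc_spec hC (F.toList.map w) k (w c)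
    (List.mem_map.2 ⟨c, Finset.mem_toList.2 hc, rfl⟩)
  set f := fc hC (F.toList.map w) k with hfdef
  show ‖f.ψ (f.φ (c : C)) - (c : C)‖ < ε
  have h2 : f.ψ (f.φ (c : C)) - (c : C) =
      f.ψ (f.φ ((c : C) - w c)) + (f.ψ (f.φ (w c)) - w c) + (w c - (c : C)) := by
    rw [map_sub, map_sub]
    abel
  have h3 : ‖f.ψ (f.φ ((c : C) - w c))‖ ≤ ‖(c : C) - w c‖ :=
    (f.hψ.1 _).trans (f.hφ.1 _)
  have h4 : ‖w c - (c : C)‖ = ‖(c : C) - w c‖ := norm_sub_rev _ _
  have h5 := hd c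
  calc ‖f.ψ (f.φ (c : C)) - (c : C)‖
      ≤ ‖f.ψ (f.φ ((c : C) - w c))‖ + ‖f.ψ (f.φ (w c)) - w c‖ + ‖w c - (c : C)‖ := by
        rw [h2]
        exact norm_add₃_le
    _ < ε := by linarith

/-- Every small nonempty subset of a C*-algebra with the approximation property lies in a small
C*-subalgebra with the approximation property. -/
theorem exists_small (hC : CPAPu C) (Z : Set C) (hZ : Z.Nonempty) [Small.{0} Z] :
    ∃ (S : NonUnitalStarSubalgebra ℂ C) (_ : IsClosed (S : Set C)), Small.{0} S ∧ Z ⊆ (S : Set C) ∧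
      CPAPu S :=
  ⟨cloA hC Z hZ, closed_cloA hC Z hZ, small_cloA hC Z hZ,
    fun _ hx => mem_cloA_of_uni (mem_uni.2 ⟨0, hx⟩), cpap_cloA hC Z hZ⟩

/-- transport of the approximation property along an isomorphism -/
theorem cpap_copy {T : Type v} [NonUnitalCStarAlgebra T] (e : T ≃⋆ₐ[ℂ] C)
    (he : ∀ t, ‖e t‖ = ‖t‖) (hC : CPAPu C) : CPAPu T := by
  classical
  intro F ε hε
  obtain ⟨f, hf⟩ := hC (F.image e) ε hε
  have he' : ∀ c, ‖e.symm c‖ = ‖c‖ := fun c => by
    rw [← he, e.apply_symm_apply]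
  refine ⟨⟨f.D, f.iD, f.fD,
    { toFun := fun x => f.φ (e x)
      map_add' := fun x y => by rw [map_add, map_add]
      map_smul' := fun c x => by rw [map_smul, map_smul]; rfl },
    { toFun := fun d => e.symm (f.ψ d)
      map_add' := fun x y => by rw [map_add, map_add]
      map_smul' := fun c x => by rw [map_smul, map_smul]; rfl },
    ⟨fun a => (f.hφ.1 _).trans (he a).le, fun n y => ?_⟩,
    ⟨fun d => (he' _).le.trans (f.hψ.1 d), fun n y => ?_⟩⟩, fun c hc => ?_⟩
  · obtain ⟨z, hz⟩ := f.hφ.2 n (y.map e)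
    refine ⟨z, ?_⟩
    rw [← hz]
    ext i j
    simp only [Matrix.map_apply, Matrix.mul_apply, Matrix.star_apply]
    show f.φ (e _) = f.φ _
    rw [map_sum]
    simp [map_mul, map_star]
  · obtain ⟨z, hz⟩ := f.hψ.2 n y
    refine ⟨z.map e.symm, ?_⟩
    ext i j
    have h1 := congrFun (congrFun hz i) j
    simp only [Matrix.map_apply, Matrix.mul_apply, Matrix.star_apply] at h1 ⊢
    show e.symm (f.ψ _) = _
    rw [h1, map_sum]
    simp [map_mul, map_star]
  · have h1 := hf (e c) (Finset.mem_image_of_mem _ hc)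
    show ‖e.symm (f.ψ (f.φ (e c))) - c‖ < ε
    rw [← he, map_sub, e.apply_symm_apply]
    exact h1

end

end Pool.Agent.Helper10.BK
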