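import Mathlib
import Pool.Agent.Helper10.BK.Small

/-!
# Completely positive maps of Mathlib and the approximation property
-/

namespace Pool.Agent.Helper10.BK

universe u v w w'

open scoped CStarAlgebra Topology

noncomputable section

variable {A : Type u} {B : Type v} [NonUnitalCStarAlgebra A] [NonUnitalCStarAlgebra B]

theorem nonneg_sq {E : Type u} [NonUnitalCStarAlgebra E] [PartialOrder E] [StarOrderedRing E]
    {x : E} (h : 0 ≤ x) : ∃ b, x = star b * b :=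
  CStarAlgebra.nonneg_iff_eq_star_mul_self.1 h

theorem ccpu_of_cp [PartialOrder A] [StarOrderedRing A] [PartialOrder B] [StarOrderedRing B]
    (φ : A →CP B) (h : ∀ a, ‖φ a‖ ≤ ‖a‖) : CCPu φ.toLinearMap := by
  refine ⟨h, fun n y => ?_⟩
  have h1 : (0 : CStarMatrix (Fin n) (Fin n) A) ≤
      star (CStarMatrix.ofMatrix y) * CStarMatrix.ofMatrix y := star_mul_self_nonneg _
  have h2 := φ.map_cstarMatrix_nonneg' n _ h1
  obtain ⟨b, hb⟩ := nonneg_sq (E := CStarMatrix (Fin n) (Fin n) B) h2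
  exact ⟨CStarMatrix.ofMatrix.symm b, hb⟩

/-- a completely positive map from the hand-written condition -/
def cpOf [PartialOrder A] [StarOrderedRing A] [PartialOrder B] [StarOrderedRing B]
    (φ : A →ₗ[ℂ] B) (h : CCPu φ) : A →CP B where
  toLinearMap := φ
  map_cstarMatrix_nonneg' := by
    intro k M hM
    obtain ⟨b, hb⟩ := nonneg_sq (E := CStarMatrix (Fin k) (Fin k) A) hM
    obtain ⟨z, hz⟩ := h.2 k (CStarMatrix.ofMatrix.symm b)
    have h3 : M.map φ = star (CStarMatrix.ofMatrix z) * CStarMatrix.ofMatrix z := by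
      rw [hb]
      exact hz
    show 0 ≤ M.map φ
    rw [h3]
    exact star_mul_self_nonneg _

/-- composition -/
theorem ccpu_comp {E : Type w} [NonUnitalCStarAlgebra E] {φ : A →ₗ[ℂ] B} {ψ : B →ₗ[ℂ] E}
    (hφ : CCPu φ) (hψ : CCPu ψ) : CCPu (ψ.comp φ) := by
  refine ⟨fun a => (hψ.1 _).trans (hφ.1 a), fun n y => ?_⟩
  obtain ⟨z, hz⟩ := hφ.2 n y
  obtain ⟨z', hz'⟩ := hψ.2 n z
  refine ⟨z', ?_⟩
  rw [← hz', ← hz]
  rfl

/-- isometric star homomorphisms -/
theorem ccpu_hom (e : A →⋆ₙₐ[ℂ] B) (he : ∀ a, ‖e a‖ ≤ ‖a‖) :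
    CCPu ({ toFun := e, map_add' := map_add e, map_smul' := map_smul e } : A →ₗ[ℂ] B) := by
  refine ⟨he, fun n y => ⟨y.map e, ?_⟩⟩
  ext i j
  simp only [Matrix.map_apply, Matrix.mul_apply, Matrix.star_apply]
  show e _ = _
  rw [map_sum]
  simp [map_mul, map_star]

/-- from factorizations in Mathlib's language, in any universe, to `CPAPu` -/
theorem cpapu_of {C : Type u} [NonUnitalCStarAlgebra C] [PartialOrder C] [StarOrderedRing C]
    (h : ∀ (F : Finset C) (ε : ℝ), 0 < ε →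
      ∃ (D : Type w) (_ : CStarAlgebra D) (_ : PartialOrder D) (_ : StarOrderedRing D)
        (_ : FiniteDimensional ℂ D) (φ : C →CP D) (ψ : D →CP C),
        (∀ c, ‖φ c‖ ≤ ‖c‖) ∧ (∀ d, ‖ψ d‖ ≤ ‖d‖) ∧ ∀ c ∈ F, ‖ψ (φ c) - c‖ < ε) : CPAPu C := by
  intro F ε hε
  obtain ⟨D, i1, i2, i3, i4, φ, ψ, hφ, hψ, hF⟩ := h F ε hε
  have : Small.{0} D := small_of_finiteDimensional D
  obtain ⟨T, iT, e, he⟩ := exists_copy_unital D
  have he' : ∀ c, ‖e.symm c‖ = ‖c‖ := fun c => by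
    rw [← he, e.apply_symm_apply]
  let el : T ≃ₗ[ℂ] D :=
    { e.toEquiv with
      map_add' := map_add e
      map_smul' := map_smul e }
  have : FiniteDimensional ℂ T := Module.Finite.equiv el.symm
  have h1 := ccpu_of_cp φ hφ
  have h2 := ccpu_of_cp ψ hψ
  have h3 := ccpu_hom (A := T) (B := D) (e : T →⋆ₙₐ[ℂ] D) (fun a => (he a).le)
  have h4 := ccpu_hom (A := D) (B := T) (e.symm : D →⋆ₙₐ[ℂ] T) (fun a => (he' a).le)
  refine ⟨⟨T, iT, inferInstance, _, _, ccpu_comp h1 h4, ccpu_comp h3 h2⟩, fun c hc => ?_⟩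
  show ‖ψ (e (e.symm (φ c))) - c‖ < ε
  rw [e.apply_symm_apply]
  exact hF c hc

end

end Pool.Agent.Helper10.BK
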